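import Pool.Agent.Helper77.DI.Fg

/-!
MP_b07a0a_ag, Q1. Delta-ideals are finitely generated modulo the ideals of the first secant
varieties of the Segre varieties.
-/

namespace Pool.Agent.Results.MP_b07a0a_ag.FinGenOverSecant

open Pool.Agent.Helper77.DI

/-- Every Delta-ideal `I` has a finite set `S` of elements such that every Delta-ideal that contains
`S` and the ideals of the first secant varieties of the Segre varieties contains `I`. -/
theorem result (I : DeltaIdeal) : ∃ S : List Elt, (∀ x ∈ S, I.Mem x) ∧
    ∀ J : DeltaIdeal, J.ContainsSecant → (∀ x ∈ S, J.Mem x) → I.le J :=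
  fg I

end Pool.Agent.Results.MP_b07a0a_ag.FinGenOverSecant
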