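import Pool.Agent.Helper65.MT.Fin

/-!
MP_b07a0a_ag, Q2. The syzygies of the Delta-schemes contained in the first secant varieties of the
Segre varieties are concentrated in finitely many degrees.
-/

namespace Pool.Agent.Results.MP_b07a0a_ag.SecantSyzygies

open Pool.Agent Pool.Agent.Helper77

/-- For every Delta-ideal `I` containing the ideals of the first secant varieties of the Segre
varieties and every `p`, the `(p+1)`-syzygies, that is the homology of the Koszul complex at
`⋀^(p+1) W ⊗ (Sym W / I)_q`, vanish for all families and all `q > D`. -/
theorem result (I : DI.DeltaIdeal) (hI : I.ContainsSecant) (p : ℕ) :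
    ∃ D : ℕ, ∀ (ι : Type) [Finite ι] [Nonempty ι] (V : ι → Type) [∀ i, Finite (V i)]
      (q : ℕ), D < q → DS.KosExact (I.ideal ι V) p q :=
  Helper65.MT.main I hI p

end Pool.Agent.Results.MP_b07a0a_ag.SecantSyzygies
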