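import Pool.Agent.Helper77.DSR.Main

/-!
MP_b07a0a_ag, Q1. Delta-ideals of finite level whose zero sets lie in the Segre varieties are
finitely generated.
-/

namespace Pool.Agent.Results.MP_b07a0a_ag.SegreSupportFinGen

open Pool.Agent.Helper77

/-- Every Delta-ideal `I` of finite level whose zero sets are contained in the cones over the Segre
varieties is finitely generated: it is the smallest Delta-ideal containing a finite set `S`. -/
theorem result (I : DI.DeltaIdeal) (d : ℕ) (hl : DS.HasLevel I d) (hs : DS.SegreSupport I) :
    ∃ S : List DI.Elt, (∀ x ∈ S, I.Mem x) ∧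
      ∀ J : DI.DeltaIdeal, (∀ x ∈ S, J.Mem x) → I.le J :=
  (DS.main I d hl hs).1

end Pool.Agent.Results.MP_b07a0a_ag.SegreSupportFinGen
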