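import Pool.Agent.Helper77.DSR.Main

/-!
MP_b07a0a_ag, Q2. The syzygies of Delta-schemes of finite level supported on the Segre varieties
are concentrated in finitely many degrees.
-/

namespace Pool.Agent.Results.MP_b07a0a_ag.SegreSupportSyzygies

open Pool.Agent.Helper77

/-- For every Delta-ideal `I` of finite level whose zero sets are contained in the cones over the
Segre varieties and every `p`, the `(p+1)`-syzygies, that is the homology of the Koszul complex at
`⋀^(p+1) W ⊗ (Sym W / I)_q`, vanish for all families and all `q > D`. -/
theorem result (I : DI.DeltaIdeal) (d : ℕ) (hl : DS.HasLevel I d) (hs : DS.SegreSupport I)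
    (p : ℕ) : ∃ D : ℕ, ∀ (ι : Type) [Finite ι] [Nonempty ι] (V : ι → Type) [∀ i, Finite (V i)]
      (q : ℕ), D < q → DS.KosExact (I.ideal ι V) p q :=
  (DS.main I d hl hs).2 p

end Pool.Agent.Results.MP_b07a0a_ag.SegreSupportSyzygies
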